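import Pool.Agent.Helper92.PU.St

set_option autoImplicit false

open Finset

namespace Pool.Agent.Helper72.PU

open Pool.Agent.Helper92.PU Pool.Agent.Helper92.PW

private theorem qq_eq (Q : Fin 6 → ℤ) (f1 f2 : Pt) (w : ℤ × ℤ) :
    qq Q f1 f2 w = q2 (Qf Q f1) (Bf Q f1 f2) (Qf Q f2) w := by
  unfold qq q2 Bf Qf ver lf
  simp only [Fin.sum_univ_six, Prod.fst_add, Prod.snd_add, Prod.smul_fst, Prod.smul_snd,
    smul_eq_mul, Matrix.cons_val]
  ring

private theorem b2_add_right (a b c : ℤ) (v w w' : ℤ × ℤ) :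
    b2 a b c v (w + w') = b2 a b c v w + b2 a b c v w' := by
  unfold b2
  simp only [Prod.fst_add, Prod.snd_add]
  ring

private theorem b2_neg_right (a b c : ℤ) (v w : ℤ × ℤ) :
    b2 a b c v (-w) = - b2 a b c v w := by
  unfold b2
  simp only [Prod.fst_neg, Prod.snd_neg]
  ring

private theorem b2_zero_right (a b c : ℤ) (v : ℤ × ℤ) : b2 a b c v 0 = 0 := by
  unfold b2
  simp

private theorem b2_comm (a b c : ℤ) (v w : ℤ × ℤ) : b2 a b c v w = b2 a b c w v := by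
  unfold b2
  ring

private theorem q2_add (a b c : ℤ) (v w : ℤ × ℤ) :
    q2 a b c (v + w) = q2 a b c v + q2 a b c w + b2 a b c v w := by
  unfold b2 q2
  simp only [Prod.fst_add, Prod.snd_add]
  ring

private theorem q2_neg (a b c : ℤ) (v : ℤ × ℤ) : q2 a b c (-v) = q2 a b c v := by
  unfold q2
  simp only [Prod.fst_neg, Prod.snd_neg]
  ring

private theorem dvd_closure (a b e c : ℤ) (V : Set (ℤ × ℤ)) (h1 : ∀ w ∈ V, c ∣ q2 a b e w)
    (h2 : ∀ w ∈ V, ∀ w' ∈ V, c ∣ b2 a b e w w') :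
    ∀ w ∈ AddSubgroup.closure V, c ∣ q2 a b e w := by
  have s1 : ∀ w ∈ V, ∀ w' ∈ AddSubgroup.closure V, c ∣ b2 a b e w w' := by
    intro w hw w' hw'
    induction hw' using AddSubgroup.closure_induction with
    | mem x hx => exact h2 w hw x hx
    | zero => rw [b2_zero_right]; exact dvd_zero c
    | add x y _ _ hx hy => rw [b2_add_right]; exact dvd_add hx hy
    | neg x _ hx => rw [b2_neg_right]; exact (dvd_neg).2 hx
  have s2 : ∀ w ∈ AddSubgroup.closure V, ∀ w' ∈ AddSubgroup.closure V, c ∣ b2 a b e w w' := by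
    intro w hw w' hw'
    rw [b2_comm]
    induction hw using AddSubgroup.closure_induction with
    | mem x hx => rw [b2_comm]; exact s1 x hx w' hw'
    | zero => rw [b2_zero_right]; exact dvd_zero c
    | add x y _ _ hx hy => rw [b2_add_right]; exact dvd_add hx hy
    | neg x _ hx => rw [b2_neg_right]; exact (dvd_neg).2 hx
  intro w hw
  induction hw using AddSubgroup.closure_induction with
  | mem x hx => exact h1 x hx
  | zero =>
    have : q2 a b e 0 = 0 := by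
      unfold q2
      simp
    rw [this]
    exact dvd_zero c
  | add x y hx hy ihx ihy =>
    rw [q2_add]
    exact dvd_add (dvd_add ihx ihy) (s2 x hx y hy)
  | neg x _ hx => rw [q2_neg]; exact hx

private theorem lb_closure (Q : Fin 6 → ℤ) (p0 f1 f2 : Pt) (c : ℤ) (V : Set (ℤ × ℤ))
    (h1 : ∀ w ∈ V, c ∣ lb Q p0 f1 f2 w) :
    ∀ w ∈ AddSubgroup.closure V, c ∣ lb Q p0 f1 f2 w := by
  intro w hw
  induction hw using AddSubgroup.closure_induction with
  | mem x hx => exact h1 x hx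
  | zero =>
    have : lb Q p0 f1 f2 0 = 0 := by
      unfold lb
      simp
    rw [this]
    exact dvd_zero c
  | add x y _ _ ihx ihy =>
    have : lb Q p0 f1 f2 (x + y) = lb Q p0 f1 f2 x + lb Q p0 f1 f2 y := by
      unfold lb
      simp only [Prod.fst_add, Prod.snd_add]
      ring
    rw [this]
    exact dvd_add ihx ihy
  | neg x _ hx =>
    have : lb Q p0 f1 f2 (-x) = - lb Q p0 f1 f2 x := by
      unfold lb
      simp only [Prod.fst_neg, Prod.snd_neg]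
      ring
    rw [this]
    exact (dvd_neg).2 hx

private theorem cube_dvd (c : ℤ) (Q : Fin 6 → ℤ) (p0 f1 f2 : Pt) (w : ℤ × ℤ)
    (h1 : c ∣ qq Q f1 f2 w) (h2 : c ∣ lb Q p0 f1 f2 w) : c ^ 3 ∣ Fm (cur Q p0 f1 f2 w) := by
  obtain ⟨s, hs⟩ := h1
  obtain ⟨t, ht⟩ := h2
  have h : ∃ p : Pt, cur Q p0 f1 f2 w = c • p := by
    refine ⟨(-s) • p0 + t • lf f1 f2 w, ?_⟩
    unfold cur
    rw [hs, ht, smul_add, smul_smul, smul_smul]
    congr 2
    ring
  obtain ⟨p, hp⟩ := h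
  rw [hp]
  refine ⟨Fm p, ?_⟩
  unfold Fm
  simp only [Prod.smul_fst, Prod.smul_snd, smul_eq_mul]
  ring

private theorem key (Q : Fin 6 → ℤ) (p0 f1 f2 : Pt) (hdet : det3 p0 f1 f2 = 1) (c : ℤ) (p : Pt)
    (a g : ℤ) (w : ℤ × ℤ) (h1 : lb Q p0 f1 f2 w = g * c) (h2 : p = a • p0 + g • lf f1 f2 w)
    (h3 : c • p = cur Q p0 f1 f2 w) : qq Q f1 f2 w = - (c * a) := by
  have h4 : (c * a + qq Q f1 f2 w) • p0 = 0 := by
    have h5 : c • (a • p0 + g • lf f1 f2 w) =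
        (-qq Q f1 f2 w) • p0 + lb Q p0 f1 f2 w • lf f1 f2 w := by
      rw [← h2]
      exact h3
    rw [h1, smul_add, smul_smul, smul_smul] at h5
    have h6 : (g * c) • lf f1 f2 w = (c * g) • lf f1 f2 w := by rw [mul_comm]
    rw [h6] at h5
    have h7 : (c * a) • p0 = (-qq Q f1 f2 w) • p0 := add_right_cancel h5
    rw [add_smul, h7, neg_smul, neg_add_cancel]
  have h8 : (c * a + qq Q f1 f2 w) * det3 p0 f1 f2 = 0 := by
    have e1 := congrArg Prod.fst h4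
    have e2 := congrArg (fun q : Pt => q.2.1) h4
    have e3 := congrArg (fun q : Pt => q.2.2) h4
    simp only [Prod.smul_fst, Prod.smul_snd, smul_eq_mul, Prod.fst_zero, Prod.snd_zero] at e1 e2 e3
    unfold det3 dot
    linear_combination (crs f1 f2).1 * e1 + (crs f1 f2).2.1 * e2 + (crs f1 f2).2.2 * e3
  rw [hdet, mul_one] at h8
  linarith

private theorem det_id (p0 f1 f2 : Pt) (a g a' g' : ℤ) (w w' : ℤ × ℤ) :
    det3 p0 (a • p0 + g • lf f1 f2 w) (a' • p0 + g' • lf f1 f2 w') =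
      g * g' * dt2 w w' * det3 p0 f1 f2 := by
  unfold det3 dot crs lf dt2
  simp only [Prod.fst_add, Prod.snd_add, Prod.smul_fst, Prod.smul_snd, smul_eq_mul]
  ring

private theorem det_bd (B : ℝ) (p q r : Pt) (hp : Bd B p) (hq : Bd B q)
    (hr : Bd B r) : |(det3 p q r : ℝ)| ≤ 6 * B ^ 3 := by
  obtain ⟨p1, p2, p3⟩ := hp
  obtain ⟨q1, q2, q3⟩ := hq
  obtain ⟨r1, r2, r3⟩ := hr
  have t : ∀ x y z : ℝ, |x| ≤ B → |y| ≤ B → |z| ≤ B → |x * (y * z)| ≤ B ^ 3 := by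
    intro x y z hx hy hz
    rw [abs_mul, abs_mul]
    have hB : 0 ≤ B := (abs_nonneg x).trans hx
    calc |x| * (|y| * |z|) ≤ B * (B * B) :=
          mul_le_mul hx (mul_le_mul hy hz (abs_nonneg _) hB) (by positivity) hB
      _ = B ^ 3 := by ring
  have e : (det3 p q r : ℝ) = (p.1 : ℝ) * ((q.2.1 : ℝ) * (r.2.2 : ℝ)) - (p.1 : ℝ) * ((q.2.2 : ℝ) * (r.2.1 : ℝ))
      + ((p.2.1 : ℝ) * ((q.2.2 : ℝ) * (r.1 : ℝ)) - (p.2.1 : ℝ) * ((q.1 : ℝ) * (r.2.2 : ℝ)))
      + ((p.2.2 : ℝ) * ((q.1 : ℝ) * (r.2.1 : ℝ)) - (p.2.2 : ℝ) * ((q.2.1 : ℝ) * (r.1 : ℝ))) := by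
    unfold det3 dot crs
    push_cast
    ring
  rw [e]
  have a1 := abs_le.1 (t _ _ _ p1 q2 r3)
  have a2 := abs_le.1 (t _ _ _ p1 q3 r2)
  have a3 := abs_le.1 (t _ _ _ p2 q3 r1)
  have a4 := abs_le.1 (t _ _ _ p2 q1 r3)
  have a5 := abs_le.1 (t _ _ _ p3 q1 r2)
  have a6 := abs_le.1 (t _ _ _ p3 q2 r1)
  rw [abs_le]
  constructor
  · linarith [a1.1, a2.2, a3.1, a4.2, a5.1, a6.2]
  · linarith [a1.2, a2.1, a3.2, a4.1, a5.2, a6.1]

theorem hMA2 (hTR : StTR) (hGC : StGC) (hCB : StCB) (hLN6 : StLN6) : StMA2 := by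
  intro k ε hk hε
  have hk0 : (k : ℝ) ≠ 0 := by
    have : k ≠ 0 := by
      intro h
      exact hk 0 (by rw [h]; norm_num)
    exact_mod_cast this
  obtain ⟨C0, hC0, hT⟩ := hTR 6 6 (k : ℝ) (ε / 3) (by norm_num) (by norm_num) hk0 (by positivity)
  refine ⟨C0 * (6 : ℝ) ^ (ε / 3), by positivity, ?_⟩
  intro B Q p0 f1 f2 hB hp0 hdet c hc S hS
  have hcR : (c : ℝ) ≠ 0 := by exact_mod_cast hc
  -- the parameters
  have hex : ∀ p : Pt, ∃ w : ℤ × ℤ, p ∈ S → IsCoprime w.1 w.2 ∧ c • p = cur Q p0 f1 f2 w ∧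
      ∃ a g : ℤ, 1 ≤ g ∧ lb Q p0 f1 f2 w = g * c ∧ p = a • p0 + g • lf f1 f2 w := by
    intro p
    by_cases hp : p ∈ S
    · obtain ⟨-, -, a, g, u, v, h1, h2, h3, h4, h5⟩ := hS p hp
      exact ⟨(u, v), fun _ => ⟨h2, h5, a, g, h1, h3, h4⟩⟩
    · exact ⟨0, fun h => absurd h hp⟩
  choose w hw using hex
  have hinj : Set.InjOn w S := by
    intro p hp p' hp' h
    have h1 := (hw p hp).2.1
    have h2 := (hw p' hp').2.1
    rw [h, ← h2] at h1
    exact smul_right_injective Pt hc h1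
  have hcard : (S.image w).card = S.card := Finset.card_image_of_injOn hinj
  have hWc : ∀ x ∈ S.image w, IsCoprime x.1 x.2 ∧ c ∣ qq Q f1 f2 x ∧ c ∣ lb Q p0 f1 f2 x ∧
      Fm (cur Q p0 f1 f2 x) = k * c ^ 3 := by
    intro x hx
    obtain ⟨p, hp, rfl⟩ := Finset.mem_image.1 hx
    obtain ⟨h1, h2, a, g, h3, h4, h5⟩ := hw p hp
    refine ⟨h1, ?_, ?_, ?_⟩
    · rw [key Q p0 f1 f2 hdet c p a g (w p) h4 h5 h2]
      exact (dvd_neg).2 (dvd_mul_right c a)
    · rw [h4]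
      exact dvd_mul_left c g
    · rw [← h2, ← (hS p hp).1]
      unfold Fm
      simp only [Prod.smul_fst, Prod.smul_snd, smul_eq_mul]
      ring
  have hWinj : ∀ x ∈ S.image w, ∀ y ∈ S.image w,
      cur Q p0 f1 f2 x = cur Q p0 f1 f2 y → x = y := by
    intro x hx y hy h
    obtain ⟨p, hp, rfl⟩ := Finset.mem_image.1 hx
    obtain ⟨q, hq, rfl⟩ := Finset.mem_image.1 hy
    rw [← (hw p hp).2.1, ← (hw q hq).2.1] at h
    rw [smul_right_injective Pt hc h]
  have hWdt : ∀ x ∈ S.image w, ∀ y ∈ S.image w, |(dt2 x y : ℝ)| ≤ 6 * B ^ 3 := by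
    intro x hx y hy
    obtain ⟨p, hp, rfl⟩ := Finset.mem_image.1 hx
    obtain ⟨q, hq, rfl⟩ := Finset.mem_image.1 hy
    obtain ⟨-, -, a, g, h3, -, h5⟩ := hw p hp
    obtain ⟨-, -, a', g', h3', -, h5'⟩ := hw q hq
    have h6 : det3 p0 p q = g * g' * dt2 (w p) (w q) := by
      have h7 := det_id p0 f1 f2 a g a' g' (w p) (w q)
      rw [← h5, ← h5', hdet, mul_one] at h7
      exact h7
    have h8 := det_bd B p0 p q hp0 (hS p hp).2.1 (hS q hq).2.1
    rw [h6] at h8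
    refine le_trans ?_ h8
    push_cast
    rw [abs_mul]
    have h9 : (1 : ℝ) ≤ |(g : ℝ) * (g' : ℝ)| := by
      have h10 : (1 : ℝ) ≤ (g : ℝ) := by exact_mod_cast h3
      have h11 : (1 : ℝ) ≤ (g' : ℝ) := by exact_mod_cast h3'
      have h12 : (1 : ℝ) ≤ (g : ℝ) * (g' : ℝ) := by nlinarith
      exact h12.trans (le_abs_self _)
    have h13 := abs_nonneg (dt2 (w p) (w q) : ℝ)
    nlinarith
  obtain ⟨f, hf1, hf2⟩ := hCB (Qf Q f1) (Bf Q f1 f2) (Qf Q f2) c (S.image w) hc (by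
    intro x hx
    obtain ⟨h1, h2, -, -⟩ := hWc x hx
    rw [qq_eq] at h2
    exact ⟨h1, h2⟩)
  obtain ⟨g, hg⟩ := hGC.2 Q p0 f1 f2 c
  have hM1 : (1 : ℝ) ≤ 6 * B ^ 3 := by
    have : (1 : ℝ) ≤ B ^ 3 := one_le_pow₀ hB
    linarith
  have hclass : ∀ y ∈ (S.image w).image f,
      ((((S.image w).filter fun x => f x = y).card : ℕ) : ℝ) ≤ C0 * (6 * B ^ 3) ^ (ε / 3) := by
    intro y _
    refine hT (6 * B ^ 3) g ((S.image w).filter fun x => f x = y) hM1 ?_ ?_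
    · refine ⟨?_, ?_, ?_⟩
      · intro x hx
        have hV : ∀ v ∈ (((S.image w).filter fun x => f x = y : Finset (ℤ × ℤ)) : Set (ℤ × ℤ)),
            v ∈ S.image w ∧ f v = y := by
          intro v hv
          exact Finset.mem_filter.1 (Finset.mem_coe.1 hv)
        have d1 : c ∣ q2 (Qf Q f1) (Bf Q f1 f2) (Qf Q f2) x := by
          refine dvd_closure _ _ _ _ _ ?_ ?_ x hx
          · intro v hv
            have := (hWc v (hV v hv).1).2.1
            rwa [qq_eq] at this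
          · intro v hv v' hv'
            exact hf2 v (hV v hv).1 v' (hV v' hv').1 ((hV v hv).2.trans (hV v' hv').2.symm)
        have d2 : c ∣ lb Q p0 f1 f2 x := by
          refine lb_closure Q p0 f1 f2 c _ ?_ x hx
          intro v hv
          exact (hWc v (hV v hv).1).2.2.1
        rw [← qq_eq] at d1
        obtain ⟨n, hn⟩ := cube_dvd c Q p0 f1 f2 x d1 d2
        refine ⟨n, ?_⟩
        rw [hg, hn]
        push_cast
        field_simp
      · intro x hx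
        have h1 := (hWc x (Finset.mem_filter.1 hx).1).2.2.2
        rw [hg, h1]
        push_cast
        field_simp
      · intro α α' γ hα
        refine hLN6 k hk Q p0 f1 f2 c α α' γ hc hα _ ?_ ?_
        · intro x hx
          obtain ⟨h1, h2⟩ := Finset.mem_filter.1 hx
          exact ⟨h2, (hWc x (Finset.mem_filter.1 h1).1).2.2.2⟩
        · intro x hx x' hx'
          exact hWinj x (Finset.mem_filter.1 (Finset.mem_filter.1 hx).1).1 x'
            (Finset.mem_filter.1 (Finset.mem_filter.1 hx').1).1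
    · intro x hx x' hx'
      exact hWdt x (Finset.mem_filter.1 hx).1 x' (Finset.mem_filter.1 hx').1
  have hpos : 0 ≤ C0 * (6 * B ^ 3) ^ (ε / 3) := by positivity
  have hcount := Finset.card_le_mul_card_image (f := f) (S.image w)
    ⌊C0 * (6 * B ^ 3) ^ (ε / 3)⌋₊ (fun y hy => Nat.le_floor (hclass y hy))
  rw [hcard] at hcount
  have hpow : (6 * B ^ 3) ^ (ε / 3) = (6 : ℝ) ^ (ε / 3) * B ^ ε := by
    have hB0 : 0 ≤ B := by linarith
    rw [Real.mul_rpow (by norm_num) (by positivity), ← Real.rpow_natCast B 3, ← Real.rpow_mul hB0]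
    congr 2
    push_cast
    ring
  have h1 : (S.card : ℝ) ≤ (⌊C0 * (6 * B ^ 3) ^ (ε / 3)⌋₊ : ℝ) * (((S.image w).image f).card : ℝ) := by
    exact_mod_cast hcount
  have h2 : (⌊C0 * (6 * B ^ 3) ^ (ε / 3)⌋₊ : ℝ) ≤ C0 * (6 * B ^ 3) ^ (ε / 3) :=
    Nat.floor_le hpos
  have h3 : ((((S.image w).image f).card : ℕ) : ℝ) ≤ (c.natAbs.divisors.card : ℝ) := by
    exact_mod_cast hf1
  calc (S.card : ℝ) ≤ _ := h1
    _ ≤ (C0 * (6 * B ^ 3) ^ (ε / 3)) * (c.natAbs.divisors.card : ℝ) :=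
        mul_le_mul h2 h3 (Nat.cast_nonneg _) hpos
    _ = C0 * (6 : ℝ) ^ (ε / 3) * c.natAbs.divisors.card * B ^ ε := by
        rw [hpow]
        ring

end Pool.Agent.Helper72.PU
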